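import Pool.Agent.U5.Poly

/-!
# Contraction quotients of a window

Columns of type B: the window is contracted along connected classes of positions. The corresponding
count of colourings is a polynomial which is nonnegative at `q`, because the quotient is a minor.
-/

set_option autoImplicit false

namespace Pool.Agent.Helper32.U5

open SimpleGraph Finset Polynomial Pool.Agent.Helper36.BL Pool.Agent.U5

section

variable {V : Type}

/-- the quotient of `H` by the connected components of `F` -/
def quo (H F : SimpleGraph V) : SimpleGraph F.ConnectedComponent where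
  Adj a b := a ≠ b ∧ ∃ x y, F.connectedComponentMk x = a ∧ F.connectedComponentMk y = b ∧ H.Adj x y
  symm := ⟨fun _ _ h => ⟨h.1.symm, by
    obtain ⟨-, x, y, hx, hy, h⟩ := h
    exact ⟨y, x, hy, hx, h.symm⟩⟩⟩
  loopless := ⟨fun _ h => h.1 rfl⟩

lemma quo_adj (H F : SimpleGraph V) (a b : F.ConnectedComponent) :
    (quo H F).Adj a b ↔ a ≠ b ∧ ∃ x y, F.connectedComponentMk x = a ∧
      F.connectedComponentMk y = b ∧ H.Adj x y := Iff.rfl

lemma isMinor_quo {H F : SimpleGraph V} (h : F ≤ H) : IsMinor (quo H F) H := by
  refine ⟨fun a => a.supp, ?_, ?_, ?_⟩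
  · intro a
    have h1 : (F.induce a.supp).Connected := a.connected_toSimpleGraph
    refine h1.mono ?_
    intro x y hxy
    exact h hxy
  · intro a b hab
    rw [Set.disjoint_left]
    intro x hx hx'
    exact hab (hx.symm.trans hx')
  · rintro a b ⟨-, x, y, hx, hy, hxy⟩
    exact ⟨x, hx, y, hy, hxy⟩

open scoped Classical in
/-- the quotient has fewer vertices -/
lemma card_quo_lt [Fintype V] {F : SimpleGraph V} {x y : V} (h : F.Adj x y) :
    Fintype.card F.ConnectedComponent < Fintype.card V := by
  refine Fintype.card_lt_of_surjective_not_injective (F.connectedComponentMk) ?_ ?_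
  · intro a
    exact a.exists_rep
  · intro hi
    exact h.ne (hi (ConnectedComponent.sound h.reachable))

lemma const_of_adj {F : SimpleGraph V} {α : Type} {c : V → α} (h : ∀ x y, F.Adj x y → c x = c y)
    {x y : V} (hr : F.Reachable x y) : c x = c y := by
  obtain ⟨p⟩ := hr
  induction p with
  | nil => rfl
  | cons hadj _ ih => exact (h _ _ hadj).trans ih

open scoped Classical in
/-- colourings of the quotient -/
lemma cnt_quo [Fintype V] (H F : SimpleGraph V) (n : ℕ) :
    cnt (quo H F) n = (Finset.univ.filter (fun c : V → Fin n => (∀ x y, F.Adj x y → c x = c y) ∧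
      ∀ x y, H.Adj x y → F.connectedComponentMk x ≠ F.connectedComponentMk y → c x ≠ c y)).card := by
  unfold cnt
  symm
  refine Finset.card_bij'
    (fun c hc => fun a => c a.out)
    (fun d _ => fun x => d (F.connectedComponentMk x)) ?_ ?_ ?_ ?_
  · intro c hc
    rw [Finset.mem_filter] at hc
    rw [mem_cols]
    rintro a b ⟨hab, x, y, rfl, rfl, hxy⟩
    have h1 : ∀ x, c (F.connectedComponentMk x).out = c x := fun x =>
      const_of_adj hc.2.1 (ConnectedComponent.exact (Quot.out_eq _))
    show c _ ≠ c _
    rw [h1, h1]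
    exact hc.2.2 x y hxy hab
  · intro d hd
    rw [mem_cols] at hd
    rw [Finset.mem_filter]
    refine ⟨Finset.mem_univ _, ?_, ?_⟩
    · intro x y hxy
      show d _ = d _
      rw [ConnectedComponent.sound hxy.reachable]
    · intro x y hxy hne
      exact hd _ _ ⟨hne, x, y, rfl, rfl, hxy⟩
  · intro c hc
    rw [Finset.mem_filter] at hc
    funext x
    exact const_of_adj hc.2.1 (ConnectedComponent.exact (Quot.out_eq _))
  · intro d _
    funext a
    show d _ = d _
    congr 1
    exact Quot.out_eq _

end

section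

variable {V ι : Type}

/-- the graph `H - K` together with the images of the window edges `E` -/
def win (H : SimpleGraph V) (K : Finset V) (w : ι → V) (E : ι → ι → Prop) : SimpleGraph V where
  Adj x y := x ≠ y ∧ ((dl H K).Adj x y ∨ ∃ i j, (E i j ∨ E j i) ∧ x = w i ∧ y = w j)
  symm := ⟨fun _ _ h => ⟨h.1.symm, by
    rcases h.2 with h | ⟨i, j, h1, h2, h3⟩
    · exact Or.inl h.symm
    · exact Or.inr ⟨j, i, h1.symm, h3, h2⟩⟩⟩
  loopless := ⟨fun _ h => h.1 rfl⟩

/-- the contracted edges -/
def ctr (w : ι → V) (E : ι → ι → Prop) (lam : ι → ℕ) : SimpleGraph V where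
  Adj x y := x ≠ y ∧ ∃ i j, (E i j ∨ E j i) ∧ lam i = lam j ∧ x = w i ∧ y = w j
  symm := ⟨fun _ _ h => ⟨h.1.symm, by
    obtain ⟨i, j, h1, h2, h3, h4⟩ := h.2
    exact ⟨j, i, h1.symm, h2.symm, h4, h3⟩⟩⟩
  loopless := ⟨fun _ h => h.1 rfl⟩

lemma win_le {H : SimpleGraph V} {K : Finset V} {w : ι → V} {E : ι → ι → Prop}
    (hE : ∀ i j, E i j → H.Adj (w i) (w j)) : win H K w E ≤ H := by
  rintro x y ⟨-, h | ⟨i, j, h | h, rfl, rfl⟩⟩
  · exact h.1
  · exact hE i j h
  · exact (hE j i h).symm

lemma ctr_le {H : SimpleGraph V} {K : Finset V} {w : ι → V} {E : ι → ι → Prop} {lam : ι → ℕ} :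
    ctr w E lam ≤ win H K w E := by
  rintro x y ⟨h, i, j, h1, -, h3, h4⟩
  exact ⟨h, Or.inr ⟨i, j, h1, h3, h4⟩⟩

open scoped Classical in
/-- the colourings counted by a column of type B -/
noncomputable def colB [Fintype V] (H : SimpleGraph V) (K : Finset V) (w : ι → V) (E : ι → ι → Prop)
    (lam : ι → ℕ) (n : ℕ) : Finset (V → Fin n) :=
  Finset.univ.filter (fun c => (∀ x y, (dl H K).Adj x y → c x ≠ c y) ∧
    (∀ i j, lam i = lam j → c (w i) = c (w j)) ∧ ∀ i j, E i j → lam i ≠ lam j → c (w i) ≠ c (w j))

/-- Columns of type B are nonnegative. -/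
theorem colB_nonneg {Cl : Cls} {q : ℝ} (hq : 0 < q) [Fintype V] (hyp : Hyp Cl q (Fintype.card V))
    {H : SimpleGraph V} (hH : Cl.mem H) (K : Finset V) (w : ι → V) (E : ι → ι → Prop)
    (hE : ∀ i j, E i j → H.Adj (w i) (w j)) (lam : ι → ℕ)
    (hconn : ∀ i j, lam i = lam j →
      Relation.ReflTransGen (fun a b => (E a b ∨ E b a) ∧ lam a = lam b) i j)
    (hc : (∃ i j, E i j ∧ lam i = lam j) ∨ ∃ u ∈ K, ∀ i j, E i j → w i ≠ u ∧ w j ≠ u) :
    ∃ p : ℝ[X], 0 ≤ p.eval q ∧ ∀ n : ℕ, p.eval (n : ℝ) = ((colB H K w E lam n).card : ℝ) := by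
  classical
  set H' := win H K w E with hH'
  set F := ctr w E lam with hF
  have hle : H' ≤ H := win_le hE
  have hFH : F ≤ H' := ctr_le
  have hmem' : Cl.mem H' := Cl.minor (IsMinor.of_le hle) hH
  have hmemq : Cl.mem (quo H' F) := Cl.minor (isMinor_quo hFH) hmem'
  -- classes are contained in components
  have hcomp : ∀ i j, lam i = lam j → F.connectedComponentMk (w i) = F.connectedComponentMk (w j) := by
    intro i j hij
    have h := hconn i j hij
    clear hij
    induction h with
    | refl => rfl
    | @tail b c _ h ih =>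
      refine ih.trans ?_
      obtain ⟨h1, h2⟩ := h
      by_cases hw : w b = w c
      · exact congrArg _ hw
      · exact ConnectedComponent.sound (Adj.reachable ⟨hw, b, c, h1, h2, rfl, rfl⟩)
  by_cases hbad : ∃ x y, F.connectedComponentMk x = F.connectedComponentMk y ∧
      ((dl H K).Adj x y ∨ ∃ i j, E i j ∧ lam i ≠ lam j ∧ x = w i ∧ y = w j)
  · -- an edge inside a class: no colourings
    obtain ⟨x, y, hxy, hb⟩ := hbad
    refine ⟨0, by simp, ?_⟩
    intro n
    have : colB H K w E lam n = ∅ := by
      apply Finset.eq_empty_of_forall_notMem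
      intro c hc
      unfold colB at hc
      rw [Finset.mem_filter] at hc
      obtain ⟨-, h1, h2, h3⟩ := hc
      have hconst : ∀ x y, F.Adj x y → c x = c y := by
        rintro x y ⟨-, i, j, -, h, rfl, rfl⟩
        exact h2 i j h
      have he : c x = c y := const_of_adj hconst (ConnectedComponent.exact hxy)
      rcases hb with hb | ⟨i, j, hb1, hb2, rfl, rfl⟩
      · exact h1 x y hb he
      · exact h3 i j hb1 hb2 he
    rw [this]
    simp
  · push Not at hbad
    refine ⟨cp (quo H' F), ?_, ?_⟩
    · rcases hc with ⟨i, j, h1, h2⟩ | ⟨u, huK, hu⟩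
      · have hadj : F.Adj (w i) (w j) := ⟨(hE i j h1).ne, i, j, Or.inl h1, h2, rfl, rfl⟩
        exact (hyp _ _ hmemq (card_quo_lt hadj)).le
      · by_cases hFe : ∃ x y, F.Adj x y
        · obtain ⟨x, y, hadj⟩ := hFe
          exact (hyp _ _ hmemq (card_quo_lt hadj)).le
        · push Not at hFe
          -- the quotient is isomorphic to `H'`, in which `u` is isolated
          have hinj : ∀ x y, F.connectedComponentMk x = F.connectedComponentMk y → x = y := by
            intro x y h
            obtain ⟨p⟩ := ConnectedComponent.exact h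
            cases p with
            | nil => rfl
            | cons h _ => exact absurd h (hFe _ _)
          have hiso : Nonempty (H' ≃g quo H' F) := by
            have hbij : Function.Bijective F.connectedComponentMk :=
              ⟨fun x y h => hinj x y h, fun a => a.exists_rep⟩
            refine ⟨⟨Equiv.ofBijective F.connectedComponentMk hbij, ?_⟩⟩
            intro x y
            simp only [Equiv.ofBijective_apply, quo_adj]
            constructor
            · rintro ⟨-, x', y', hx, hy, h⟩
              rwa [hinj _ _ hx, hinj _ _ hy] at h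
            · intro h
              exact ⟨fun h' => h.ne (hinj _ _ h'), x, y, rfl, rfl, h⟩
          obtain ⟨e⟩ := hiso
          have h1 : P q H' = P q (quo H' F) := P_iso q e
          have h2 : 0 < P q H' := by
            refine P_pos_isolated hq hyp hmem' u ?_
            rintro y ⟨-, h | ⟨i, j, h | h, h3, h4⟩⟩
            · exact h.2.1 huK
            · exact (hu i j h).1 h3.symm
            · exact (hu j i h).2 h3.symm
          rw [h1] at h2
          exact h2.le
    · intro n
      rw [cp_eval, cnt_quo]
      congr 2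
      unfold colB
      ext c
      rw [Finset.mem_filter, Finset.mem_filter]
      refine and_congr_right fun _ => ?_
      constructor
      · rintro ⟨h1, h2⟩
        refine ⟨?_, ?_, ?_⟩
        · intro x y hxy
          refine h2 x y ⟨hxy.ne, Or.inl hxy⟩ ?_
          intro h
          exact (hbad x y h).1 hxy
        · intro i j hij
          exact const_of_adj h1 (ConnectedComponent.exact (hcomp i j hij))
        · intro i j hij hne
          refine h2 (w i) (w j) ⟨(hE i j hij).ne, Or.inr ⟨i, j, Or.inl hij, rfl, rfl⟩⟩ ?_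
          intro h
          exact (hbad _ _ h).2 i j hij hne rfl rfl
      · rintro ⟨h1, h2, h3⟩
        refine ⟨?_, ?_⟩
        · rintro x y ⟨-, i, j, -, h, rfl, rfl⟩
          exact h2 i j h
        · rintro x y ⟨hne, h | ⟨i, j, h | h, rfl, rfl⟩⟩ hcc
          · exact h1 x y h
          · exact h3 i j h (fun h' => hcc (hcomp i j h'))
          · exact (h3 j i h (fun h' => hcc (hcomp i j h'.symm))).symm

end

end Pool.Agent.Helper32.U5
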